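import Pool.Agent.J6H25.CR.RH

/-!
# Chains of contexts with a condition on the steps
-/

set_option autoImplicit false

namespace Pool.Agent.J6H25.CQ

open Pool.Agent.J6H25.PIT Pool.Agent.J6H25.CR

/-- A chain of contexts from `E` down to `G'` (see `CR.Seg`) all steps of which satisfy `P`. -/
inductive SegC (P : Step → Prop) (G' : Ex) : Ex → List ℕ → Prop
  | nil (hs : List Step) : (∀ s ∈ hs, P s) → SegC P G' (plug hs G') []
  | cons {hs : List Step} {G : Ex} {us : List ℕ} {u : ℕ} : (∀ s ∈ hs, P s) → ho hs u ≠ 0 →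
      (∀ w ∈ us, ho hs w = 0) → SegC P G' G us → SegC P G' (plug hs G) (u :: us)

/-- A separated chain (see `CR.Sep`) all steps of which satisfy `P`. -/
inductive SepC (P : Step → Prop) (B : Ex) : Ex → List ℕ → Prop
  | nil : SepC P B B []
  | cons {hs : List Step} {G : Ex} {us : List ℕ} {u : ℕ} : (∀ s ∈ hs, P s) → ho hs u ≠ 0 →
      (∀ w ∈ us, ho hs w = 0) → G.occ u = B.occ u → SepC P B G us →
      SepC P B (plug hs G) (u :: us)

variable {P : Step → Prop}

theorem allp_append {hs hs' : List Step} (h : ∀ s ∈ hs, P s) (h' : ∀ s ∈ hs', P s) :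
    ∀ s ∈ hs ++ hs', P s := fun s hs => (List.mem_append.1 hs).elim (h s) (h' s)

theorem SegC.exists_plug {G' E : Ex} {us : List ℕ} (h : SegC P G' E us) :
    ∃ hs, E = plug hs G' ∧ ∀ s ∈ hs, P s := by
  induction h with
  | nil hs hP => exact ⟨hs, rfl, hP⟩
  | @cons hs G us u hP h1 h2 h3 ih =>
    obtain ⟨hs', rfl, h'⟩ := ih
    exact ⟨hs ++ hs', (plug_append _ _ _).symm, allp_append hP h'⟩

/-- all variables of the chain occur in the context -/
theorem SegC.nodup {G' E : Ex} {us : List ℕ} (h : SegC P G' E us) : us.Nodup := by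
  induction h with
  | nil hs hP => exact List.nodup_nil
  | @cons hs G us u hP h1 h2 h3 ih => exact List.nodup_cons.2 ⟨fun hu => h1 (h2 u hu), ih⟩

theorem SegC.plug {G' E : Ex} {us : List ℕ} (h : SegC P G' E us) {hs : List Step}
    (hP : ∀ s ∈ hs, P s) (hhs : ∀ w ∈ us, ho hs w = 0) : SegC P G' (CR.plug hs E) us := by
  cases h with
  | nil hs' hP' =>
    rw [← plug_append]
    exact SegC.nil _ (allp_append hP hP')
  | @cons hs' G us u hP' h1 h2 h3 =>
    rw [← plug_append]
    refine SegC.cons (allp_append hP hP') ?_ ?_ h3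
    · rw [ho_append]; omega
    · intro w hw
      rw [ho_append, h2 w hw, hhs w (List.mem_cons_of_mem _ hw)]

theorem SegC.sublist {G' E : Ex} {us us' : List ℕ} (h : SegC P G' E us) (h' : us'.Sublist us) :
    SegC P G' E us' := by
  induction h generalizing us' with
  | nil hs hP =>
    rw [List.sublist_nil] at h'
    subst h'
    exact SegC.nil _ hP
  | @cons hs G us u hP h1 h2 h3 ih =>
    cases h' with
    | cons _ h' => exact (ih h').plug hP fun w hw => h2 w (h'.subset hw)
    | cons_cons _ h' => exact SegC.cons hP h1 (fun w hw => h2 w (h'.subset hw)) (ih h')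

/-- the chain is cut after the first variables (`us = []`: `G = E`, `hs = []`) -/
theorem SegC.split {G' E : Ex} {us vs : List ℕ} (h : SegC P G' E (us ++ vs)) :
    ∃ G hs, E = CR.plug hs G ∧ (∀ s ∈ hs, P s) ∧ SegC P G E us ∧ (∀ u ∈ us, ho hs u ≠ 0) ∧
      (∀ w ∈ vs, ho hs w = 0) ∧ SegC P G' G vs := by
  induction us generalizing E with
  | nil =>
    exact ⟨E, [], rfl, by simp, SegC.nil [] (by simp), by simp, fun w _ => rfl, h⟩
  | cons u us ih =>
    rw [List.cons_append] at h
    cases h with
    | @cons hs G _ _ hP h1 h2 h3 =>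
      obtain ⟨G₁, hs₁, rfl, hP₁, h4, h5, h6, h7⟩ := ih h3
      refine ⟨G₁, hs ++ hs₁, (plug_append _ _ _).symm, allp_append hP hP₁, SegC.cons hP h1
        (fun w hw => h2 w (List.mem_append_left _ hw)) h4, ?_, ?_, h7⟩
      · intro v hv
        rw [ho_append]
        rcases List.mem_cons.1 hv with rfl | hv
        · omega
        · have := h5 v hv
          omega
      · intro w hw
        rw [ho_append, h6 w hw, h2 w (List.mem_append_right _ hw)]

theorem SepC.exists_plug {B E : Ex} {us : List ℕ} (h : SepC P B E us) :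
    ∃ hs, E = CR.plug hs B := by
  induction h with
  | nil => exact ⟨[], rfl⟩
  | @cons hs G us u hP h1 h2 h3 h4 ih =>
    obtain ⟨hs', rfl⟩ := ih
    exact ⟨hs ++ hs', (plug_append _ _ _).symm⟩

/-- **Gaps.** -/
theorem SegC.gap {G' E : Ex} {us : List ℕ} (h : SegC P G' E us) {u r K : ℕ} (hr : E.occ u ≤ r)
    (hK : (r + 1) * K ≤ us.length) :
    ∃ (vs : List ℕ) (G₁ G₂ : Ex) (hs hs' : List Step), vs.Sublist us ∧ K ≤ vs.length ∧
      E = CR.plug hs G₁ ∧ (∀ s ∈ hs, P s) ∧ (∀ w ∈ vs, ho hs w = 0) ∧ SegC P G₂ G₁ vs ∧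
      G₂ = CR.plug hs' G' ∧ G₁.occ u = G₂.occ u := by
  induction r generalizing E us with
  | zero =>
    obtain ⟨hs0, h0, -⟩ := h.exists_plug
    have h1 := occ_plug hs0 G' u
    rw [← h0] at h1
    refine ⟨us, E, G', [], [], List.Sublist.refl _, by omega, rfl, by simp, fun w _ => rfl, h, rfl,
      by omega⟩
  | succ r ih =>
    have h0 : SegC P G' E (us.take K ++ us.drop K) := by rwa [List.take_append_drop]
    obtain ⟨G, hs, rfl, hP, h2, -, h4, h5⟩ := h0.split
    have h6 : K + (r + 1) * K ≤ us.length := by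
      have e : (r + 1 + 1) * K = K + (r + 1) * K := by ring
      rw [← e]
      exact hK
    by_cases hG : G.occ u = (CR.plug hs G).occ u
    · obtain ⟨hs', hG', -⟩ := h5.exists_plug
      refine ⟨us.take K, _, G, [], hs', List.take_sublist K us, ?_, rfl, by simp, fun w _ => rfl,
        h2, hG', hG.symm⟩
      rw [List.length_take]
      exact le_min le_rfl ((Nat.le_add_right K ((r + 1) * K)).trans h6)
    · have h7 := occ_plug hs G u
      have h8 : G.occ u ≤ r := by omega
      have h9 : (r + 1) * K ≤ (us.drop K).length := by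
        rw [List.length_drop]
        omega
      obtain ⟨vs, G₁, G₂, hs1, hs2, a1, a2, a3, aP, a4, a5, a6, a7⟩ := ih h5 h8 h9
      refine ⟨vs, G₁, G₂, hs ++ hs1, hs2, a1.trans (List.drop_sublist K us), a2, ?_,
        allp_append hP aP, ?_, a5, a6, a7⟩
      · rw [plug_append, ← a3]
      · intro w hw
        rw [ho_append, h4 w (a1.subset hw), a4 w hw]

/-- **Separated chains.** -/
theorem exists_sepC (j k q : ℕ) : ∃ N : ℕ, ∀ (P : Step → Prop) (E G' : Ex) (us : List ℕ),
    SegC P G' E us →
    (∀ (G : Ex) (hs : List Step), E = CR.plug hs G →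
      (us.filter fun i => decide (j < G.occ i ∧ G.occ i < E.occ i)).length ≤ k) →
    N ≤ us.length →
    ∃ (vs : List ℕ) (B E' : Ex) (hs hs' : List Step), vs.Sublist us ∧ vs.length = q ∧
      E = CR.plug hs E' ∧ (∀ s ∈ hs, P s) ∧ (∀ w ∈ vs, ho hs w = 0) ∧ SepC P B E' vs ∧
      B = CR.plug hs' G' ∧ ∀ u ∈ vs, B.occ u ≤ j := by
  induction q with
  | zero =>
    refine ⟨0, fun P E G' us hS _ _ => ?_⟩
    obtain ⟨hs', h, -⟩ := hS.exists_plug
    exact ⟨[], E, E, [], hs', List.nil_sublist _, rfl, rfl, by simp, by simp, SepC.nil, h, by simp⟩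
  | succ q ih =>
    obtain ⟨Nq, ih⟩ := ih
    refine ⟨(k + 1) + (j + 1) * Nq, fun P E G' us hS hH hN => ?_⟩
    obtain ⟨us₁, us₂, rfl, hl⟩ : ∃ us₁ us₂ : List ℕ, us = us₁ ++ us₂ ∧ us₁.length = k + 1 := by
      refine ⟨us.take (k + 1), us.drop (k + 1), (List.take_append_drop _ _).symm, ?_⟩
      rw [List.length_take]
      apply min_eq_left
      exact le_trans (Nat.le_add_right _ _) hN
    rw [List.length_append, hl] at hN
    have hN2 : (j + 1) * Nq ≤ us₂.length := by omega
    obtain ⟨G, hs₁, hE, hP₁, -, h1, h2, hS2⟩ := hS.split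
    -- a variable which occurs at most `j` times in `G`
    obtain ⟨u, hu, huj⟩ : ∃ u ∈ us₁, G.occ u ≤ j := by
      by_contra hcon
      push Not at hcon
      have h3 := hH G hs₁ hE
      have h4 : us₁.filter (fun i => decide (j < G.occ i ∧ G.occ i < E.occ i)) = us₁ := by
        rw [List.filter_eq_self]
        intro v hv
        rw [decide_eq_true_iff]
        refine ⟨hcon v hv, ?_⟩
        rw [hE, occ_plug]
        have := h1 v hv
        omega
      rw [List.filter_append, h4, List.length_append, hl] at h3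
      omega
    obtain ⟨vs₁, G₁, G₂, hs₂, hs₃, g1, g2, g3, gP, g4, g5, g6, g7⟩ := hS2.gap (u := u) huj hN2
    have hEG : ∀ (F : Ex) (hs : List Step), G₁ = CR.plug hs F →
        E = CR.plug (hs₁ ++ (hs₂ ++ hs)) F := by
      intro F hs hF
      rw [hE, g3, hF, plug_append, plug_append]
    have hle : ∀ i, G₁.occ i ≤ E.occ i := by
      intro i
      rw [hE, g3, occ_plug, occ_plug]
      omega
    obtain ⟨vs, B, E', hs₄, hs₅, k1, k2, k3, kP, k4, k5, k6, k7⟩ := ih P G₁ G₂ vs₁ g5 (by
      intro F hs hF
      refine le_trans ?_ (hH F _ (hEG F hs hF))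
      have s1 : (vs₁.filter fun i => decide (j < F.occ i ∧ F.occ i < E.occ i)).Sublist
          ((us₁ ++ us₂).filter fun i => decide (j < F.occ i ∧ F.occ i < E.occ i)) :=
        (g1.trans (List.sublist_append_right _ _)).filter _
      refine le_trans ?_ s1.length_le
      rw [← List.countP_eq_length_filter, ← List.countP_eq_length_filter]
      refine List.countP_mono_left fun i _ hi => ?_
      rw [decide_eq_true_iff] at hi ⊢
      exact ⟨hi.1, lt_of_lt_of_le hi.2 (hle i)⟩) g2
    have eE' : E'.occ u = B.occ u ∧ B.occ u ≤ j := by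
      obtain ⟨hs₆, h6⟩ := k5.exists_plug
      have a1 : G₁.occ u = ho hs₄ u + E'.occ u := by rw [k3, occ_plug]
      have a2 : E'.occ u = ho hs₆ u + B.occ u := by rw [h6, occ_plug]
      have a3 : B.occ u = ho hs₅ u + G₂.occ u := by rw [k6, occ_plug]
      have a4 : G.occ u = ho hs₂ u + G₁.occ u := by rw [g3, occ_plug]
      constructor <;> omega
    refine ⟨u :: vs, B, E, [], hs₅ ++ hs₃, ?_, by rw [List.length_cons, k2], rfl, by simp,
      fun w _ => rfl, ?_, ?_, ?_⟩
    · have s1 : [u].Sublist us₁ := List.singleton_sublist.2 hu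
      exact s1.append (k1.trans g1)
    · rw [hEG E' hs₄ k3]
      refine SepC.cons (allp_append hP₁ (allp_append gP kP)) ?_ ?_ eE'.1 k5
      · rw [ho_append]
        have := h1 u hu
        omega
      · intro w hw
        have w1 := k1.subset hw
        have w2 := g1.subset w1
        rw [ho_append, ho_append, h2 w w2, g4 w w1, k4 w hw]
    · rw [k6, g6, plug_append]
    · intro v hv
      rcases List.mem_cons.1 hv with rfl | hv
      · exact eE'.2
      · exact k7 v hv

/-! ### values -/

/-- the condition on the steps: the siblings in products are not zero -/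
def NZs (a c : ℕ → ℚ) (X : Finset ℕ) (s : Step) : Prop :=
  s.1 = Op.mul → ∀ T ⊆ X, s.2.2.eval (pt a c T) ≠ 0

/-- The value of one step. -/
theorem ap_form (a c : ℕ → ℚ) (s : Step) :
    ∃ x y : Finset ℕ → ℚ, (∀ T H, (s.ap H).eval (pt a c T) = x T * H.eval (pt a c T) + y T) ∧
      (∀ T T' : Finset ℕ, (∀ i, s.2.2.occ i ≠ 0 → (i ∈ T ↔ i ∈ T')) → x T = x T' ∧ y T = y T') ∧
      ∀ X : Finset ℕ, NZs a c X s → ∀ T ⊆ X, x T ≠ 0 := by
  obtain ⟨o, b, D⟩ := s
  cases b
  · -- the hole is on the right
    cases o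
    · refine ⟨fun _ => 1, fun T => D.eval (pt a c T), fun T H => ?_,
        fun T T' h => ⟨rfl, eval_pt_congr a c D h⟩, fun X _ T _ => one_ne_zero⟩
      simp only [Step.ap, Bool.false_eq_true, if_false, Ex.eval, Op.ap]
      ring
    · refine ⟨fun _ => -1, fun T => D.eval (pt a c T), fun T H => ?_,
        fun T T' h => ⟨rfl, eval_pt_congr a c D h⟩, fun X _ T _ => by norm_num⟩
      simp only [Step.ap, Bool.false_eq_true, if_false, Ex.eval, Op.ap]
      ring
    · refine ⟨fun T => D.eval (pt a c T), fun _ => 0, fun T H => ?_,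
        fun T T' h => ⟨eval_pt_congr a c D h, rfl⟩, fun X hX T hT => hX rfl T hT⟩
      simp only [Step.ap, Bool.false_eq_true, if_false, Ex.eval, Op.ap]
      ring
  · -- the hole is on the left
    cases o
    · refine ⟨fun _ => 1, fun T => D.eval (pt a c T), fun T H => ?_,
        fun T T' h => ⟨rfl, eval_pt_congr a c D h⟩, fun X _ T _ => one_ne_zero⟩
      simp only [Step.ap, if_true, Ex.eval, Op.ap]
      ring
    · refine ⟨fun _ => 1, fun T => -D.eval (pt a c T), fun T H => ?_,
        fun T T' h => ⟨rfl, congrArg Neg.neg (eval_pt_congr a c D h)⟩,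
        fun X _ T _ => one_ne_zero⟩
      simp only [Step.ap, if_true, Ex.eval, Op.ap]
      ring
    · refine ⟨fun T => D.eval (pt a c T), fun _ => 0, fun T H => ?_,
        fun T T' h => ⟨eval_pt_congr a c D h, rfl⟩, fun X hX T hT => hX rfl T hT⟩
      simp only [Step.ap, if_true, Ex.eval, Op.ap]
      ring

/-- The value of a context is an affine function. -/
theorem plug_form (a c : ℕ → ℚ) (hs : List Step) :
    ∃ A C : Finset ℕ → ℚ,
      (∀ T G, (plug hs G).eval (pt a c T) = A T * G.eval (pt a c T) + C T) ∧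
      (∀ T T' : Finset ℕ, (∀ i, ho hs i ≠ 0 → (i ∈ T ↔ i ∈ T')) → A T = A T' ∧ C T = C T') ∧
      ∀ X : Finset ℕ, (∀ s ∈ hs, NZs a c X s) → ∀ T ⊆ X, A T ≠ 0 := by
  induction hs with
  | nil =>
    exact ⟨fun _ => 1, fun _ => 0, fun T G => by rw [plug_nil]; ring, fun T T' _ => ⟨rfl, rfl⟩,
      fun X _ T _ => one_ne_zero⟩
  | cons s hs ih =>
    obtain ⟨A, C, hval, hdep, hA⟩ := ih
    obtain ⟨x, y, hxy, hxd, hx⟩ := ap_form a c s
    refine ⟨fun T => x T * A T, fun T => x T * C T + y T, fun T G => ?_, fun T T' h => ?_,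
      fun X hX T hT => mul_ne_zero (hx X (hX s List.mem_cons_self) T hT)
        (hA X (fun s' hs' => hX s' (List.mem_cons_of_mem _ hs')) T hT)⟩
    · rw [plug_cons, hxy, hval]
      ring
    · obtain ⟨h1, h2⟩ := hdep T T' fun i hi => h i (by rw [ho_cons]; omega)
      obtain ⟨h3, h4⟩ := hxd T T' fun i hi => h i (by rw [ho_cons]; omega)
      exact ⟨by simp only [h1, h3], by simp only [h2, h3, h4]⟩

/-- **The value of a separated chain.** -/
theorem SepC.eval {a c : ℕ → ℚ} {X : Finset ℕ} {B E : Ex} {us : List ℕ}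
    (h : SepC (NZs a c X) B E us) (hus : ∀ u ∈ us, u ∈ X) :
    ∃ α β : ℕ → Bool → ℚ, (∀ i b, α i b ≠ 0) ∧ ∀ T ⊆ X, (∀ i ∈ T, i ∉ us → E.occ i = B.occ i) →
      E.eval (pt a c T) = ca α us T * B.eval (pt a c T) + cb α β us T := by
  induction h with
  | nil =>
    refine ⟨fun _ _ => 1, fun _ _ => 0, fun _ _ => one_ne_zero, fun T _ _ => ?_⟩
    simp only [ca, cb]
    ring
  | @cons hs G us u hP h1 h2 h3 h4 ih =>
    obtain ⟨α, β, hα, hval⟩ := ih (fun w hw => hus w (List.mem_cons_of_mem _ hw))
    obtain ⟨A, C, hAC, hdep, hA'⟩ := plug_form a c hs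
    have hA := hA' X hP
    have huX : u ∈ X := hus u List.mem_cons_self
    have huus : u ∉ us := fun hu => h1 (h2 u hu)
    have hle : ∀ i, B.occ i ≤ G.occ i := by
      intro i
      obtain ⟨hs', hG'⟩ := h4.exists_plug
      rw [hG', occ_plug]
      omega
    refine ⟨fun i b => if i = u then (if b then A {u} else A ∅) else α i b,
      fun i b => if i = u then (if b then C {u} else C ∅) else β i b, fun i b => ?_,
      fun T hT hocc => ?_⟩
    · dsimp only
      split_ifs
      · exact hA _ (Finset.singleton_subset_iff.2 huX)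
      · exact hA _ (Finset.empty_subset _)
      · exact hα i b
    · have hT2 : ∀ i ∈ T, i ∉ us → G.occ i = B.occ i := by
        intro i hi hius
        by_cases hiu : i = u
        · rw [hiu]; exact h3
        · have h5 := hocc i hi (by
            rw [List.mem_cons, not_or]
            exact ⟨hiu, hius⟩)
          rw [occ_plug] at h5
          have := hle i
          omega
      have hT3 : ∀ i ∈ T, ho hs i ≠ 0 → i = u := by
        intro i hi hio
        by_contra hiu
        have h5 := hocc i hi (by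
          rw [List.mem_cons, not_or]
          exact ⟨hiu, fun hius => hio (h2 i hius)⟩)
        rw [occ_plug] at h5
        have := hle i
        omega
      rw [hAC T, hval T hT hT2]
      have e1 : ca (fun i b => if i = u then (if b then A {u} else A ∅) else α i b) us T =
          ca α us T := ca_congr (fun i hi => by
            funext b
            rw [if_neg (fun hiu : i = u => huus (hiu ▸ hi))]) T
      have e2 : cb (fun i b => if i = u then (if b then A {u} else A ∅) else α i b)
          (fun i b => if i = u then (if b then C {u} else C ∅) else β i b) us T =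
          cb α β us T := cb_congr (fun i hi => by
            funext b
            rw [if_neg (fun hiu : i = u => huus (hiu ▸ hi))]) (fun i hi => by
            funext b
            rw [if_neg (fun hiu : i = u => huus (hiu ▸ hi))]) T
      simp only [ca, cb]
      rw [e1, e2]
      by_cases huT : u ∈ T
      · obtain ⟨k1, k2⟩ := hdep T {u} fun i hi => by
          rw [Finset.mem_singleton]
          exact ⟨fun h => hT3 i h hi, fun h => h ▸ huT⟩
        rw [k1, k2]
        simp only [huT, decide_true, if_true]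
        ring
      · obtain ⟨k1, k2⟩ := hdep T ∅ fun i hi => by
          constructor
          · intro h
            exact absurd (hT3 i h hi ▸ h) huT
          · intro h
            exact absurd h (Finset.notMem_empty _)
        rw [k1, k2]
        simp only [huT, decide_false, if_true, Bool.false_eq_true, if_false]
        ring

/-- a context without variables -/
theorem Rep.plugC {W : ℕ} {Y : List ℕ} {a c : ℕ → ℚ} {hs : List Step} {G : Ex}
    (hY : ∀ i ∈ Y, ho hs i = 0) (h : Rep W Y (fun T => G.eval (pt a c T))) :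
    Rep (W + 1) Y (fun T => (CR.plug hs G).eval (pt a c T)) := by
  obtain ⟨A, C, h2, h3, -⟩ := plug_form a c hs
  refine ((((Rep.const Y (A ∅)).mul h).add (Rep.const Y (C ∅))).mono (by omega)).congr
    fun T hT => ?_
  show (CR.plug hs G).eval (pt a c T) = A ∅ * G.eval (pt a c T) + C ∅
  rw [h2 T]
  obtain ⟨h4, h5⟩ := h3 T ∅ fun i hi => ⟨fun hiT => absurd (hY i (hT i hiT)) hi,
    fun hi' => absurd hi' (Finset.notMem_empty i)⟩
  rw [h4, h5]

end Pool.Agent.J6H25.CQ
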