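import Pool.Agent.J6H25.CQ.Q0

/-!
# Expressions whose products have a good factor
-/

set_option autoImplicit false

namespace Pool.Agent.J6H25.CQ

open Pool.Agent.J6H25.PIT Pool.Agent.J6H25.CR

/-- the expression is not zero at the points `pt a c T`, `T ⊆ X`, and the same is true for all
factors of products in it -/
def Fl (a c : ℕ → ℚ) (X : Finset ℕ) (E : Ex) : Prop :=
  (∀ T ⊆ X, E.eval (pt a c T) ≠ 0) ∧ Gd a c X E

/-- in each product one of the factors is good (`Fl`) -/
def Pg (a c : ℕ → ℚ) (X : Finset ℕ) : Ex → Prop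
  | Ex.op Op.mul s t => (Pg a c X s ∧ Fl a c X t) ∨ (Fl a c X s ∧ Pg a c X t)
  | Ex.op _ s t => Pg a c X s ∧ Pg a c X t
  | _ => True

theorem pg_op {a c : ℕ → ℚ} {X : Finset ℕ} {o : Op} (ho : o ≠ Op.mul) (s t : Ex) :
    Pg a c X (Ex.op o s t) ↔ Pg a c X s ∧ Pg a c X t := by
  cases o
  · rfl
  · rfl
  · exact absurd rfl ho

theorem pg_mul {a c : ℕ → ℚ} {X : Finset ℕ} (s t : Ex) :
    Pg a c X (Ex.op Op.mul s t) ↔
      (Pg a c X s ∧ Fl a c X t) ∨ (Fl a c X s ∧ Pg a c X t) := Iff.rfl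

theorem pg_of_gd {a c : ℕ → ℚ} {X : Finset ℕ} {E : Ex} (h : Gd a c X E) : Pg a c X E := by
  induction E with
  | var i => trivial
  | num q => trivial
  | op o s t ihs iht =>
    have hs : Gd a c X s := h.of_mem (by simp [Ex.subs, Ex.mem_subs_self])
    have ht : Gd a c X t := h.of_mem (by simp [Ex.subs, Ex.mem_subs_self])
    by_cases ho : o = Op.mul
    · subst ho
      exact Or.inl ⟨ihs hs, fun T hT => (h s t (Ex.mem_subs_self _) T hT).2, ht⟩
    · exact (pg_op ho s t).2 ⟨ihs hs, iht ht⟩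

theorem Pg.both {a c : ℕ → ℚ} {X : Finset ℕ} {o : Op} {s t : Ex} (h : Pg a c X (Ex.op o s t)) :
    Pg a c X s ∧ Pg a c X t := by
  by_cases ho : o = Op.mul
  · subst ho
    rcases h with ⟨h1, h2⟩ | ⟨h1, h2⟩
    · exact ⟨h1, pg_of_gd h2.2⟩
    · exact ⟨pg_of_gd h1.2, h2⟩
  · exact (pg_op ho s t).1 h

theorem Pg.of_mem {a c : ℕ → ℚ} {X : Finset ℕ} {E F : Ex} (h : Pg a c X E) (hF : F ∈ E.subs) :
    Pg a c X F := by
  induction E with
  | var i => simp only [Ex.subs, List.mem_singleton] at hF; rw [hF]; exact h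
  | num q => simp only [Ex.subs, List.mem_singleton] at hF; rw [hF]; exact h
  | op o s t ihs iht =>
    simp only [Ex.subs, List.mem_cons, List.mem_append] at hF
    rcases hF with rfl | hF | hF
    · exact h
    · exact ihs h.both.1 hF
    · exact iht h.both.2 hF

theorem Fl.mono {a c : ℕ → ℚ} {X X' : Finset ℕ} {E : Ex} (h : Fl a c X E) (hX : X' ⊆ X) :
    Fl a c X' E :=
  ⟨fun T hT => h.1 T (hT.trans hX), h.2.mono hX (Ex.mem_subs_self _)⟩

theorem Pg.mono {a c : ℕ → ℚ} {X X' : Finset ℕ} {E : Ex} (h : Pg a c X E) (hX : X' ⊆ X) :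
    Pg a c X' E := by
  induction E with
  | var i => trivial
  | num q => trivial
  | op o s t ihs iht =>
    by_cases ho : o = Op.mul
    · subst ho
      rcases h with ⟨h1, h2⟩ | ⟨h1, h2⟩
      · exact Or.inl ⟨ihs h1, h2.mono hX⟩
      · exact Or.inr ⟨h1.mono hX, iht h2⟩
    · exact (pg_op ho s t).2 ⟨ihs ((pg_op ho s t).1 h).1, iht ((pg_op ho s t).1 h).2⟩

/-! ### long chains -/

/-- a long chain, or many variables which occur in both arguments of an operation, or in a good
factor of a product -/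
def Out (m N : ℕ) (a c : ℕ → ℚ) (X₀ : Finset ℕ) (E : Ex) (X : Finset ℕ) : Prop :=
  (∃ (us : List ℕ) (G' : Ex), SegC (NZs a c X₀) G' E us ∧ (∀ u ∈ us, u ∈ X) ∧ us.length = N) ∨
  (∃ (hs : List Step) (o : Op) (s t : Ex) (Y : Finset ℕ), E = plug hs (Ex.op o s t) ∧
    Pg a c X₀ s ∧ Pg a c X₀ t ∧ Y ⊆ X ∧ m ≤ Y.card ∧
    ∀ i ∈ Y, ho hs i = 0 ∧ s.occ i ≠ 0 ∧ t.occ i ≠ 0) ∨
  (∃ (hs : List Step) (G : Ex) (Y : Finset ℕ), E = plug hs G ∧ Gd a c X₀ G ∧ Y ⊆ X ∧
    m ≤ Y.card ∧ ∀ i ∈ Y, ho hs i = 0 ∧ G.occ i ≠ 0)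

theorem Out.step {m N : ℕ} {a c : ℕ → ℚ} {X₀ : Finset ℕ} {E : Ex} {X X' : Finset ℕ}
    (h : Out m N a c X₀ E X') {st : Step} (hst : NZs a c X₀ st) (hX : X' ⊆ X)
    (h0 : ∀ i ∈ X', st.2.2.occ i = 0) : Out m N a c X₀ (st.ap E) X := by
  rcases h with ⟨us, G', h1, h2, h3⟩ | ⟨hs, o, s, t, Y, rfl, hs1, ht1, hY, hYm, hYi⟩ |
    ⟨hs, G, Y, rfl, hG, hY, hYm, hYi⟩
  · refine Or.inl ⟨us, G', ?_, fun u hu => hX (h2 u hu), h3⟩
    have := h1.plug (hs := [st]) (by simpa using hst) fun w hw => by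
      rw [ho_cons, h0 w (h2 w hw), ho_nil]
    simpa [plug_cons, plug_nil] using this
  · refine Or.inr (Or.inl ⟨st :: hs, o, s, t, Y, (plug_cons _ _ _).symm, hs1, ht1, hY.trans hX, hYm,
      fun i hi => ⟨?_, (hYi i hi).2⟩⟩)
    rw [ho_cons, (hYi i hi).1, h0 i (hY hi)]
  · refine Or.inr (Or.inr ⟨st :: hs, G, Y, (plug_cons _ _ _).symm, hG, hY.trans hX, hYm,
      fun i hi => ⟨?_, (hYi i hi).2⟩⟩)
    rw [ho_cons, (hYi i hi).1, h0 i (hY hi)]

theorem Out.cons {m N : ℕ} {a c : ℕ → ℚ} {X₀ : Finset ℕ} {E : Ex} {X X' : Finset ℕ}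
    (h : Out m N a c X₀ E X') {st : Step} (hst : NZs a c X₀ st) (hX : X' ⊆ X)
    (h0 : ∀ i ∈ X', st.2.2.occ i = 0) {u : ℕ} (hu : u ∈ X) (hu0 : st.2.2.occ u ≠ 0) :
    Out m (N + 1) a c X₀ (st.ap E) X := by
  rcases h with ⟨us, G', h1, h2, h3⟩ | ⟨hs, o, s, t, Y, rfl, hs1, ht1, hY, hYm, hYi⟩ |
    ⟨hs, G, Y, rfl, hG, hY, hYm, hYi⟩
  · refine Or.inl ⟨u :: us, G', ?_, ?_, by rw [List.length_cons, h3]⟩
    · have := SegC.cons (P := NZs a c X₀) (hs := [st]) (u := u) (by simpa using hst)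
        (by rw [ho_cons, ho_nil]; omega) (fun w hw => by
          rw [ho_cons, h0 w (h2 w hw), ho_nil]) h1
      simpa [plug_cons, plug_nil] using this
    · intro v hv
      rcases List.mem_cons.1 hv with rfl | hv
      · exact hu
      · exact hX (h2 v hv)
  · refine Or.inr (Or.inl ⟨st :: hs, o, s, t, Y, (plug_cons _ _ _).symm, hs1, ht1, hY.trans hX, hYm,
      fun i hi => ⟨?_, (hYi i hi).2⟩⟩)
    rw [ho_cons, (hYi i hi).1, h0 i (hY hi)]
  · refine Or.inr (Or.inr ⟨st :: hs, G, Y, (plug_cons _ _ _).symm, hG, hY.trans hX, hYm,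
      fun i hi => ⟨?_, (hYi i hi).2⟩⟩)
    rw [ho_cons, (hYi i hi).1, h0 i (hY hi)]

/-- one step down -/
theorem Out.down {m N n : ℕ} {a c : ℕ → ℚ} {X₀ X : Finset ℕ} {G : Ex} {st : Step}
    (hst : NZs a c X₀ st) (hG : Pg a c X₀ G)
    (hn : ∀ X : Finset ℕ, (∀ i ∈ X, G.occ i ≠ 0) → n ≤ X.card → Out m N a c X₀ G X)
    (hN : (∀ i ∈ X, G.occ i ≠ 0) → Out m (N + 1) a c X₀ G X)
    (hX : ∀ i ∈ X, (st.ap G).occ i ≠ 0)
    (hc : n ≤ (X.filter fun i => st.2.2.occ i = 0).card) : Out m (N + 1) a c X₀ (st.ap G) X := by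
  have hX' : ∀ i ∈ X, st.2.2.occ i = 0 → G.occ i ≠ 0 := by
    intro i hi h0
    have := hX i hi
    rw [occ_ap] at this
    omega
  by_cases h : ∃ u ∈ X, st.2.2.occ u ≠ 0
  · obtain ⟨u, hu, hu0⟩ := h
    exact (hn (X.filter fun i => st.2.2.occ i = 0) (fun i hi => by
      rw [Finset.mem_filter] at hi
      exact hX' i hi.1 hi.2) hc).cons hst (Finset.filter_subset _ _)
        (fun i hi => (Finset.mem_filter.1 hi).2) hu hu0
  · push Not at h
    exact (hN fun i hi => hX' i hi (h i hi)).step hst (Finset.Subset.refl _) h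

theorem exists_out (m N : ℕ) : ∃ n : ℕ, ∀ (a c : ℕ → ℚ) (X₀ : Finset ℕ) (E : Ex) (X : Finset ℕ),
    Pg a c X₀ E → (∀ i ∈ X, E.occ i ≠ 0) → n ≤ X.card → Out m N a c X₀ E X := by
  induction N with
  | zero =>
    exact ⟨0, fun a c X₀ E X _ _ _ => Or.inl ⟨[], E, SegC.nil [] (by simp), by simp, rfl⟩⟩
  | succ N ih =>
    obtain ⟨n, hn⟩ := ih
    refine ⟨2 * n + 2 * m + 2, fun a c X₀ E => ?_⟩
    induction E with
    | var j =>
      intro X _ hX hc
      exfalso
      have h1 : X ⊆ {j} := by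
        intro i hi
        have h2 := hX i hi
        rw [Finset.mem_singleton]
        by_contra h3
        apply h2
        simp [Ex.occ, Ne.symm h3]
      have h2 := Finset.card_le_card h1
      rw [Finset.card_singleton] at h2
      omega
    | num q =>
      intro X _ hX hc
      exfalso
      have h1 : X ⊆ ∅ := by
        intro i hi
        exact absurd rfl (hX i hi)
      have h2 := Finset.card_le_card h1
      rw [Finset.card_empty] at h2
      omega
    | op o s t ihs iht =>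
      intro X hP hX hc
      obtain ⟨hPs, hPt⟩ := hP.both
      by_cases hb : m ≤ (X.filter fun i => s.occ i ≠ 0 ∧ t.occ i ≠ 0).card
      · refine Or.inr (Or.inl ⟨[], o, s, t, _, (plug_nil _).symm, hPs, hPt,
          Finset.filter_subset _ _, hb, fun i hi => ⟨rfl, (Finset.mem_filter.1 hi).2⟩⟩)
      · have hcard : X.card ≤ (X.filter fun i => t.occ i = 0).card +
            (X.filter fun i => s.occ i = 0).card +
            (X.filter fun i => s.occ i ≠ 0 ∧ t.occ i ≠ 0).card := by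
          refine le_trans (Finset.card_le_card ?_)
            ((Finset.card_union_le _ _).trans (Nat.add_le_add_right (Finset.card_union_le _ _) _))
          intro i hi
          simp only [Finset.mem_union, Finset.mem_filter]
          by_cases h1 : t.occ i = 0
          · exact Or.inl (Or.inl ⟨hi, h1⟩)
          · by_cases h2 : s.occ i = 0
            · exact Or.inl (Or.inr ⟨hi, h2⟩)
            · exact Or.inr ⟨hi, h2, h1⟩
        -- going to the left
        have hL : NZs a c X₀ (o, true, t) → n ≤ (X.filter fun i => t.occ i = 0).card →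
            Out m (N + 1) a c X₀ (Ex.op o s t) X := fun h1 h2 =>
          Out.down (st := (o, true, t)) (G := s) (n := n) h1 hPs
            (fun X' h3 h4 => hn a c X₀ s X' hPs h3 h4)
            (fun h3 => ihs X hPs h3 hc) hX h2
        have hR : NZs a c X₀ (o, false, s) → n ≤ (X.filter fun i => s.occ i = 0).card →
            Out m (N + 1) a c X₀ (Ex.op o s t) X := fun h1 h2 =>
          Out.down (st := (o, false, s)) (G := t) (n := n) h1 hPt
            (fun X' h3 h4 => hn a c X₀ t X' hPt h3 h4)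
            (fun h3 => iht X hPt h3 hc) hX h2
        by_cases ho : o = Op.mul
        · subst ho
          rcases hP with ⟨-, hF⟩ | ⟨hF, -⟩
          · by_cases h1 : m ≤ (X.filter fun i => s.occ i = 0).card
            · refine Or.inr (Or.inr ⟨[(Op.mul, false, s)], t, _, rfl, hF.2,
                Finset.filter_subset _ _, h1, fun i hi => ?_⟩)
              rw [Finset.mem_filter] at hi
              have h2 := hX i hi.1
              simp only [Ex.occ] at h2
              refine ⟨?_, by omega⟩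
              rw [ho_cons, ho_nil]
              exact hi.2
            · exact hL (fun _ => hF.1) (by omega)
          · by_cases h1 : m ≤ (X.filter fun i => t.occ i = 0).card
            · refine Or.inr (Or.inr ⟨[(Op.mul, true, t)], s, _, rfl, hF.2,
                Finset.filter_subset _ _, h1, fun i hi => ?_⟩)
              rw [Finset.mem_filter] at hi
              have h2 := hX i hi.1
              simp only [Ex.occ] at h2
              refine ⟨?_, by omega⟩
              rw [ho_cons, ho_nil]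
              exact hi.2
            · exact hR (fun _ => hF.1) (by omega)
        · rcases le_total (X.filter fun i => s.occ i = 0).card
            (X.filter fun i => t.occ i = 0).card with h1 | h1
          · exact hL (fun h => absurd h ho) (by omega)
          · exact hR (fun h => absurd h ho) (by omega)

end Pool.Agent.J6H25.CQ
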