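import Pool.Agent.J6H25.CQ.Q2
import Pool.Agent.J6H25.PIT.BB0

/-!
# Points of small support and the generator
-/

set_option autoImplicit false

namespace Pool.Agent.J6H25.CQ

open Pool.Agent.J6H25.PIT Pool.Agent.J6H25.CR

/-- no product in the expression is identically zero -/
def Pr (E : Ex) : Prop := ∀ s t : Ex, Ex.op Op.mul s t ∈ E.subs → ¬ IsZ (Ex.op Op.mul s t)

theorem Pr.of_mem {E F : Ex} (h : Pr E) (hF : F ∈ E.subs) : Pr F :=
  fun s t hst => h s t (Ex.subs_trans hF hst)

theorem pr_prune (E : Ex) : Pr (prune E) := by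
  intro s' t' hst hz
  obtain ⟨s, t, -, rfl, rfl, h⟩ := mul_mem_subs_prune hst
  apply h
  intro x
  have := hz x
  simpa only [Ex.eval, eval_prune] using this

theorem light_prune {j k : ℕ} {E : Ex} (h : Light j k E) : Light j k (prune E) := by
  intro F hF
  obtain ⟨G, hG, rfl, h1⟩ := mem_subs_prune hF
  refine le_trans ?_ (h G hG)
  refine Set.ncard_le_ncard (fun i hi => ?_) (light_finite j E G)
  have h2 := h1 i
  have h3 := occ_prune G i
  have h4 := hi.1
  have h5 := hi.2
  exact ⟨by omega, by omega⟩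

theorem rk_prune (F : Ex) : (rk (prune F)).1 ≤ (rk F).1 ∧ (rk (prune F)).2 ≤ (rk F).2 := by
  induction F with
  | var i => exact ⟨le_rfl, le_rfl⟩
  | num q => exact ⟨le_rfl, le_rfl⟩
  | op o s t ihs iht =>
    by_cases h : IsZ (Ex.op o s t)
    · rw [prune, if_pos h]
      exact ⟨Nat.zero_le _, Nat.zero_le _⟩
    · rw [prune, if_neg h]
      by_cases ho : o = Op.mul
      · subst ho
        rw [rk_mul, rk_mul]
        simp only
        omega
      · rw [rk_op ho, rk_op ho]
        simp only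
        split_ifs <;> omega

/-- `(rk F).2 ≤ ρ`: all factors are good -/
theorem fl_of_rank {a c : ℕ → ℚ} {X : Finset ℕ} {ρ : ℕ} {F : Ex} (hρ : (rk F).2 ≤ ρ) (hP : Pr F)
    (hz : ¬ IsZ F)
    (h : ∀ G ∈ F.subs, (rk G).2 ≤ ρ → ¬ IsZ G → ∀ T ⊆ X, G.eval (pt a c T) ≠ 0) :
    Fl a c X F := by
  refine ⟨h F (Ex.mem_subs_self _) hρ hz, fun s t hst T hT => ?_⟩
  have h1 := hP s t hst
  have hs : ¬ IsZ s := fun h => h1 fun y => by simp [Ex.eval, Op.ap, h y]
  have ht : ¬ IsZ t := fun h => h1 fun y => by simp [Ex.eval, Op.ap, h y]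
  have hs' : s ∈ F.subs := Ex.subs_trans hst (by simp [Ex.subs, Ex.mem_subs_self])
  have ht' : t ∈ F.subs := Ex.subs_trans hst (by simp [Ex.subs, Ex.mem_subs_self])
  exact ⟨h s hs' ((rk_subs hs').trans hρ) hs T hT, h t ht' ((rk_subs ht').trans hρ) ht T hT⟩

/-- `(rk F).1 ≤ ρ`: in each product one factor is good -/
theorem pg_of_rank {a c : ℕ → ℚ} {X : Finset ℕ} {ρ : ℕ} {F : Ex} (hρ : (rk F).1 ≤ ρ) (hP : Pr F)
    (h : ∀ G ∈ F.subs, (rk G).2 ≤ ρ → ¬ IsZ G → ∀ T ⊆ X, G.eval (pt a c T) ≠ 0) :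
    Pg a c X F := by
  induction F with
  | var i => trivial
  | num q => trivial
  | op o s t ihs iht =>
    have hs' : s ∈ (Ex.op o s t).subs := by simp [Ex.subs, Ex.mem_subs_self]
    have ht' : t ∈ (Ex.op o s t).subs := by simp [Ex.subs, Ex.mem_subs_self]
    have is := fun h1 => ihs h1 (hP.of_mem hs') fun G hG => h G (Ex.subs_trans hs' hG)
    have it := fun h1 => iht h1 (hP.of_mem ht') fun G hG => h G (Ex.subs_trans ht' hG)
    by_cases ho : o = Op.mul
    · subst ho
      have h1 := hP s t (Ex.mem_subs_self _)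
      have hs : ¬ IsZ s := fun h => h1 fun y => by simp [Ex.eval, Op.ap, h y]
      have ht : ¬ IsZ t := fun h => h1 fun y => by simp [Ex.eval, Op.ap, h y]
      rw [rk_mul] at hρ
      simp only at hρ
      rcases le_total (max (rk s).1 (rk t).2) (max (rk t).1 (rk s).2) with h2 | h2
      · rw [min_eq_left h2] at hρ
        exact Or.inl ⟨is (by omega), fl_of_rank (ρ := ρ) (by omega) (hP.of_mem ht') ht
          fun G hG => h G (Ex.subs_trans ht' hG)⟩
      · rw [min_eq_right h2] at hρ
        exact Or.inr ⟨fl_of_rank (ρ := ρ) (by omega) (hP.of_mem hs') hs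
          fun G hG => h G (Ex.subs_trans hs' hG), it (by omega)⟩
    · rw [rk_op ho] at hρ
      simp only at hρ
      exact (pg_op ho s t).2 ⟨is (by omega), it (by omega)⟩

/-- Points of small support. -/
theorem small_supportQ (j k : ℕ) : ∃ m : ℕ, ∀ (E F : Ex), Light j k E → F ∈ E.subs → Pr E →
    ¬ IsZ F → ∀ (a : ℕ → ℚ) (ρ : ℕ), (rk F).1 ≤ ρ →
    (∀ G ∈ F.subs, (rk G).2 ≤ ρ → ¬ IsZ G → G.eval a ≠ 0) →
    ∃ (S : Finset ℕ) (x : ℕ → ℚ), S.card < m ∧ (∀ i ∈ S, F.occ i ≠ 0) ∧ (∀ i ∉ S, x i = a i) ∧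
      F.eval x ≠ 0 := by
  obtain ⟨m, hm⟩ := hardQ j k
  refine ⟨m, fun E F hE hF hP hz a ρ hρ ha => ?_⟩
  -- a minimal support
  have hex : ∃ n, ∃ S : Finset ℕ, S.card = n ∧ (∀ i ∈ S, F.occ i ≠ 0) ∧
      ∃ x : ℕ → ℚ, (∀ i ∉ S, x i = a i) ∧ F.eval x ≠ 0 := by
    unfold IsZ at hz
    push Not at hz
    obtain ⟨x, hx⟩ := hz
    refine ⟨_, F.vlist.toFinset, rfl, fun i hi => Ex.mem_vlist.1 (List.mem_toFinset.1 hi),
      fun i => if i ∈ F.vlist.toFinset then x i else a i, fun i hi => if_neg hi, ?_⟩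
    rwa [Ex.eval_congr (y := x)]
    intro i hi
    exact if_pos (List.mem_toFinset.2 (Ex.mem_vlist.2 hi))
  classical
  obtain ⟨S, hSn, hS, x₀, hx₀, hx₀'⟩ := Nat.find_spec hex
  have hmin : ∀ S' : Finset ℕ, S'.card < S.card → (∀ i ∈ S', F.occ i ≠ 0) →
      ∀ x : ℕ → ℚ, (∀ i ∉ S', x i = a i) → F.eval x = 0 := by
    intro S' hS' hocc x hx
    by_contra hc
    rw [hSn] at hS'
    exact Nat.find_min hex hS' ⟨S', rfl, hocc, x, hx, hc⟩
  -- generic values
  let σ : Finset ℕ → ℕ → Ex := fun T i => if i ∈ S \ T then Ex.var i else Ex.num (a i)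
  have hσ : ∀ (T : Finset ℕ) (G : Ex) (x : ℕ → ℚ),
      (G.sbs (σ T)).eval x = G.eval (fun i => if i ∈ S \ T then x i else a i) := by
    intro T G x
    rw [Ex.eval_sbs]
    congr 1
    funext i
    simp only [σ]
    split_ifs <;> rfl
  obtain ⟨x, hx⟩ := generic ((S.powerset.toList.flatMap fun T =>
      (F.subs.filter fun G => decide (G.eval a ≠ 0)).map fun G => G.sbs (σ T)) ++
        [F.sbs (σ ∅)]) (by
    intro G hG
    rcases List.mem_append.1 hG with hG | hG
    · obtain ⟨T, -, hG⟩ := List.mem_flatMap.1 hG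
      obtain ⟨G₀, hG₀, rfl⟩ := List.mem_map.1 hG
      have h1 := of_decide_eq_true (List.mem_filter.1 hG₀).2
      intro h2
      apply h1
      have h3 := h2 a
      rw [hσ] at h3
      simpa using h3
    · rw [List.mem_singleton] at hG
      subst hG
      intro h2
      apply hx₀'
      have h3 := h2 x₀
      rw [hσ] at h3
      rw [← h3]
      congr 1
      funext i
      by_cases hi : i ∈ S
      · simp [hi]
      · simp [hi, hx₀ i hi])
  set c : ℕ → ℚ := fun i => if i ∈ S then x i else a i with hc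
  have hpt : ∀ T ⊆ S, pt a c T = fun i => if i ∈ S \ T then x i else a i := by
    intro T hT
    funext i
    unfold pt
    rw [hc]
    by_cases h1 : i ∈ T
    · simp [h1]
    · by_cases h2 : i ∈ S
      · simp [h1, h2]
      · simp [h1, h2]
  have hc0 : pt a c ∅ = c := by
    funext i
    simp [pt]
  have hFc : F.eval c ≠ 0 := by
    have h1 := hx (F.sbs (σ ∅)) (List.mem_append_right _ (List.mem_singleton.2 rfl))
    rw [hσ] at h1
    rw [← hc0, hpt ∅ (Finset.empty_subset _)]
    exact h1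
  have hPg : Pg a c S F := by
    refine pg_of_rank hρ (hP.of_mem hF) fun G hG h1 h2 T hT => ?_
    have h3 := hx (G.sbs (σ T)) (List.mem_append_left _ (List.mem_flatMap.2
      ⟨T, by rwa [Finset.mem_toList, Finset.mem_powerset], List.mem_map.2
        ⟨G, List.mem_filter.2 ⟨hG, decide_eq_true (ha G hG h1 h2)⟩, rfl⟩⟩))
    rw [hσ] at h3
    rw [hpt T hT]
    exact h3
  refine ⟨S, x₀, ?_, hS, hx₀, hx₀'⟩
  refine hm a c F S (fun G hG => ?_) hPg hFc fun T hT hT0 => ?_
  · refine le_trans ?_ (hE G (Ex.subs_trans hF hG))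
    rw [← Set.ncard_coe_finset]
    refine Set.ncard_le_ncard (fun i hi => ?_) (light_finite j E G)
    rw [Finset.mem_coe, Finset.mem_filter] at hi
    have h4 := CR.occ_le_of_mem_subs hF i
    exact ⟨hi.2.1, lt_of_lt_of_le hi.2.2 h4⟩
  · refine hmin (S \ T) ?_ (fun i hi => hS i (Finset.mem_sdiff.1 hi).1) _ fun i hi => ?_
    · refine Finset.card_lt_card (Finset.ssubset_iff_subset_ne.2 ⟨Finset.sdiff_subset, fun h => ?_⟩)
      apply hT0
      rw [Finset.sdiff_eq_self_iff_disjoint] at h
      exact (Finset.disjoint_self_iff_empty T).1 (Finset.disjoint_of_subset_left hT h)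
    · rw [hpt T hT]
      exact if_neg hi

theorem eval_of_rank_zero {F : Ex} (h : (rk F).2 = 0) (x y : ℕ → ℚ) : F.eval x = F.eval y := by
  refine Ex.eval_congr fun i hi => ?_
  have := rk_pos hi
  omega

/-- **The generator hits.** -/
theorem hit_pruned (j k : ℕ) : ∃ m : ℕ, ∀ (n : ℕ) (E : Ex), Light j k E → Pr E →
    (∀ i, E.occ i ≠ 0 → i < n) → ∀ (ρ : ℕ) (F : Ex), F ∈ E.subs → (rk F).2 ≤ ρ → ¬ IsZ F →
    Hit n (m * ρ) F := by
  classical
  obtain ⟨m, hm⟩ := small_supportQ j k
  refine ⟨m + 1, fun n E hE hP hn ρ => ?_⟩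
  induction ρ using Nat.strong_induction_on with
  | _ ρ ih =>
    intro F
    induction F with
    | var i =>
      intro hF hρ _
      have hi : i < n := by
        refine hn i ?_
        have := CR.occ_le_of_mem_subs hF i
        simp only [Ex.occ, if_true] at this
        omega
      have h1 : 1 ≤ ρ := by simpa [rk] using hρ
      refine Hit.off (r := 0) (z := fun _ => 0) (S := {i})
        (y := Function.update (gen n 0 fun _ => 0) i 1) (by simpa using hi) ?_
        (by simp [Ex.eval]) ?_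
      · intro l hl
        rw [Finset.mem_singleton] at hl
        exact Function.update_of_ne hl _ _
      · rw [Finset.card_singleton]
        nlinarith
    | num q =>
      intro hF hρ hz
      refine ⟨fun _ => 0, ?_⟩
      intro h0
      exact hz fun x => h0
    | op o s t ihs iht =>
      intro hF hρ hz
      have hs' : s ∈ (Ex.op o s t).subs := by simp [Ex.subs, Ex.mem_subs_self]
      have ht' : t ∈ (Ex.op o s t).subs := by simp [Ex.subs, Ex.mem_subs_self]
      by_cases ho : o = Op.mul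
      · subst ho
        have hs : ¬ IsZ s := fun h => hz fun y => by simp [Ex.eval, Op.ap, h y]
        have ht : ¬ IsZ t := fun h => hz fun y => by simp [Ex.eval, Op.ap, h y]
        rw [rk_mul] at hρ
        simp only at hρ
        exact (ihs (Ex.subs_trans hF hs') (by omega) hs).mul
          (iht (Ex.subs_trans hF ht') (by omega) ht)
      · by_cases h0 : (rk (Ex.op o s t)).2 = 0
        · unfold IsZ at hz
          push Not at hz
          obtain ⟨x, hx⟩ := hz
          refine ⟨fun _ => 0, ?_⟩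
          rwa [eval_of_rank_zero h0 _ x]
        · have h1 : (rk (Ex.op o s t)).2 = (rk (Ex.op o s t)).1 + 1 := by
            rw [rk_op ho] at h0 ⊢
            simp only at h0 ⊢
            split_ifs at h0 ⊢
            · exact absurd rfl h0
            · rfl
          obtain ⟨z, hz'⟩ := Hit.all (n := n) (r := (m + 1) * (rk (Ex.op o s t)).1)
            ((Ex.op o s t).subs.filter fun G =>
              decide ((rk G).2 ≤ (rk (Ex.op o s t)).1 ∧ ¬ IsZ G)) (by
              intro G hG
              obtain ⟨hG1, hG2⟩ := List.mem_filter.1 hG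
              obtain ⟨hG3, hG4⟩ := of_decide_eq_true hG2
              exact ih _ (by omega) G (Ex.subs_trans hF hG1) hG3 hG4)
          obtain ⟨S, x, hSm, hS, hx, hx'⟩ := hm E _ hE hF hP hz
            (gen n ((m + 1) * (rk (Ex.op o s t)).1) z) _ le_rfl fun G hG h2 h3 =>
              hz' G (List.mem_filter.2 ⟨hG, decide_eq_true ⟨h2, h3⟩⟩)
          refine Hit.off (r := (m + 1) * (rk (Ex.op o s t)).1) (z := z) (S := S) (y := x)
            (fun i hi => hn i ?_) (fun i hi => hx i hi) hx' ?_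
          · have := CR.occ_le_of_mem_subs hF i
            have := hS i hi
            omega
          · have h5 : (m + 1) * (rk (Ex.op o s t)).1 + (m + 1) =
                (m + 1) * (rk (Ex.op o s t)).2 := by rw [h1]; ring
            have h6 : (m + 1) * (rk (Ex.op o s t)).2 ≤ (m + 1) * ρ := Nat.mul_le_mul_left _ hρ
            omega

end Pool.Agent.J6H25.CQ
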